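import Mathlib

/-!
# Denominators of a ratio of two contiguous `₂φ₁` series
-/

open Finset PowerSeries

namespace Pool.Agent.Results.MP_2e34cc_co.Denominators

section general

variable {F : Type*} [Field F]

/-- The `q`-shifted factorial `(x; q)_n = ∏_{j < n} (1 - x q ^ j)`. -/
def qPoch (q x : F) (n : ℕ) : F := ∏ j ∈ Finset.range n, (1 - x * q ^ j)

/-- The basic hypergeometric series `₂φ₁(a, b; c; q, z)` as a power series in `z`. -/
noncomputable def phi (q a b c : F) : PowerSeries F :=
  PowerSeries.mk fun n => qPoch q a n * qPoch q b n / (qPoch q q n * qPoch q c n)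

/-- The coefficients of `₂φ₁(aq, bq; cq; q, z) / ₂φ₁(a, b; c; q, z)`. -/
noncomputable def gamma (q a b c : F) (n : ℕ) : F :=
  PowerSeries.coeff n (phi q (a * q) (b * q) (c * q) * (phi q a b c)⁻¹)

variable (q a b c : F)

lemma qPoch_succ (x : F) (n : ℕ) : qPoch q x (n + 1) = qPoch q x n * (1 - x * q ^ n) := by
  unfold qPoch
  rw [Finset.prod_range_succ]

lemma qPoch_succ' (x : F) (n : ℕ) : qPoch q x (n + 1) = (1 - x) * qPoch q (x * q) n := by
  unfold qPoch
  rw [Finset.prod_range_succ', mul_comm]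
  simp only [pow_zero, mul_one]
  congr 1
  refine Finset.prod_congr rfl fun j _ => ?_
  ring

lemma constCoeff_phi : PowerSeries.constantCoeff (phi q a b c) = 1 := by
  rw [← PowerSeries.coeff_zero_eq_constantCoeff_apply, phi, PowerSeries.coeff_mk]
  simp [qPoch]

/-- `E_m`. -/
def E (m : ℕ) : F := ∏ k ∈ Finset.range (m - 1), (1 - c * q ^ k) ^ (m / (k + 1))

/-- `D_m`. -/
def D (m : ℕ) : F := ∏ k ∈ Finset.range m, (1 - c * q ^ k) ^ (m / (k + 1))

lemma D_eq_E (m : ℕ) (hm : 1 ≤ m) : D q c m = E q c m * (1 - c * q ^ (m - 1)) := by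
  obtain ⟨m, rfl⟩ : ∃ k, m = k + 1 := ⟨m - 1, by omega⟩
  unfold D E
  rw [Finset.prod_range_succ, Nat.add_sub_cancel, Nat.div_self (by omega), pow_one]

lemma D_extend (i M : ℕ) (h : i ≤ M) :
    D q c i = ∏ k ∈ Finset.range M, (1 - c * q ^ k) ^ (i / (k + 1)) := by
  unfold D
  apply Finset.prod_subset
  · intro x hx
    rw [Finset.mem_range] at *
    omega
  · intro x _ hx
    rw [Finset.mem_range] at hx
    rw [Nat.div_eq_of_lt (by omega), pow_zero]

lemma mem_prod (A : Subring F) (hq : q ∈ A) (hc : c ∈ A) (M : ℕ) (e : ℕ → ℕ) :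
    ∏ k ∈ Finset.range M, (1 - c * q ^ k) ^ (e k) ∈ A := by
  apply Subring.prod_mem
  intro k _
  exact pow_mem (sub_mem (one_mem _) (mul_mem hc (pow_mem hq k))) _

lemma DD_dvd (A : Subring F) (hq : q ∈ A) (hc : c ∈ A) (i j : ℕ) (hi : 1 ≤ i) (hj : 1 ≤ j) :
    ∃ r ∈ A, E q c (i + j) = r * (D q c i * D q c j) := by
  refine ⟨∏ k ∈ Finset.range (i + j - 1),
    (1 - c * q ^ k) ^ ((i + j) / (k + 1) - (i / (k + 1) + j / (k + 1))), mem_prod q c A hq hc _ _, ?_⟩
  rw [D_extend q c i (i + j - 1) (by omega), D_extend q c j (i + j - 1) (by omega), E,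
    ← Finset.prod_mul_distrib, ← Finset.prod_mul_distrib]
  refine Finset.prod_congr rfl fun k _ => ?_
  rw [← pow_add, ← pow_add]
  congr 1
  have := Nat.add_div_le_add_div i j (k + 1)
  omega

lemma D_dvd (A : Subring F) (hq : q ∈ A) (hc : c ∈ A) (m : ℕ) :
    ∃ r ∈ A, E q c (m + 1) = r * D q c m := by
  refine ⟨∏ k ∈ Finset.range m,
    (1 - c * q ^ k) ^ ((m + 1) / (k + 1) - m / (k + 1)), mem_prod q c A hq hc _ _, ?_⟩
  rw [D, E, ← Finset.prod_mul_distrib, Nat.add_sub_cancel]
  refine Finset.prod_congr rfl fun k _ => ?_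
  rw [← pow_add]
  congr 1
  have : m / (k + 1) ≤ (m + 1) / (k + 1) := Nat.div_le_div_right (by omega)
  omega

/-- `G = z g(z)` where `g` is the ratio divided by `1 - c`. -/
noncomputable def G : PowerSeries F :=
  PowerSeries.X * (PowerSeries.C (1 / (1 - c)) * (phi q (a * q) (b * q) (c * q) * (phi q a b c)⁻¹))

variable (hq0 : q ≠ 0) (hq : ∀ n : ℕ, 1 - q ^ (n + 1) ≠ 0) (hc : ∀ n : ℕ, 1 - c * q ^ n ≠ 0)
include hq hc

lemma qPoch_q_ne (n : ℕ) : qPoch q q n ≠ 0 := by
  unfold qPoch
  rw [Finset.prod_ne_zero_iff]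
  intro j _
  have := hq j
  rwa [pow_succ'] at this

lemma qPoch_c_ne (n : ℕ) : qPoch q c n ≠ 0 := by
  unfold qPoch
  rw [Finset.prod_ne_zero_iff]
  intro j _
  exact hc j

omit hq hc in
lemma rescale_C' (x y : F) : PowerSeries.rescale x (PowerSeries.C y) = PowerSeries.C y := by
  ext n
  rw [PowerSeries.coeff_rescale, PowerSeries.coeff_C]
  split_ifs with h
  · rw [h, pow_zero, one_mul]
  · rw [mul_zero]

lemma diff_phi : phi q a b c - PowerSeries.rescale q (phi q a b c) =
    PowerSeries.C ((1 - a) * (1 - b)) * (phi q a b c * G q a b c) := by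
  have h1 : phi q a b c * G q a b c =
      PowerSeries.X * (PowerSeries.C (1 / (1 - c)) * phi q (a * q) (b * q) (c * q)) := by
    unfold G
    have : phi q a b c * (phi q a b c)⁻¹ = 1 :=
      PowerSeries.mul_inv_cancel _ (by rw [constCoeff_phi]; exact one_ne_zero)
    calc _ = PowerSeries.X * (PowerSeries.C (1 / (1 - c)) * phi q (a * q) (b * q) (c * q)) *
          (phi q a b c * (phi q a b c)⁻¹) := by ring
      _ = _ := by rw [this, mul_one]
  rw [h1]
  ext n
  rw [map_sub, PowerSeries.coeff_rescale, PowerSeries.coeff_C_mul]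
  cases n with
  | zero => simp
  | succ n =>
    rw [PowerSeries.coeff_succ_X_mul, PowerSeries.coeff_C_mul, phi, phi, PowerSeries.coeff_mk,
      PowerSeries.coeff_mk, qPoch_succ', qPoch_succ' q b, qPoch_succ' q c, qPoch_succ]
    have h1 := qPoch_q_ne q c hq hc n
    have h2 : qPoch q (c * q) n ≠ 0 := by
      have := qPoch_c_ne q c hq hc (n + 1)
      rw [qPoch_succ'] at this
      exact right_ne_zero_of_mul this
    have h3 : 1 - c ≠ 0 := by simpa using hc 0
    have h4 : 1 - q * q ^ n ≠ 0 := by have := hq n; rwa [pow_succ'] at this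
    field_simp
    ring

include hq0

lemma qdiff_phi : phi q a b c - PowerSeries.C (1 + c / q) * PowerSeries.rescale q (phi q a b c) +
    PowerSeries.C (c / q) * PowerSeries.rescale q (PowerSeries.rescale q (phi q a b c)) =
    PowerSeries.X * (phi q a b c - PowerSeries.C (a + b) * PowerSeries.rescale q (phi q a b c) +
      PowerSeries.C (a * b) * PowerSeries.rescale q (PowerSeries.rescale q (phi q a b c))) := by
  ext n
  generalize hk1 : 1 + c / q = k1
  generalize hk2 : a + b = k2
  generalize hk4 : a * b = k4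
  cases n with
  | zero =>
    rw [map_add, map_sub, PowerSeries.coeff_zero_X_mul]
    simp only [PowerSeries.coeff_C_mul, PowerSeries.coeff_rescale, pow_zero, one_mul]
    subst hk1
    ring
  | succ n =>
    rw [PowerSeries.coeff_succ_X_mul, map_add, map_sub, map_add, map_sub]
    simp only [PowerSeries.coeff_C_mul, PowerSeries.coeff_rescale]
    subst hk1 hk2 hk4
    rw [phi, PowerSeries.coeff_mk, PowerSeries.coeff_mk, qPoch_succ, qPoch_succ q b, qPoch_succ q c,
      qPoch_succ]
    have h1 := qPoch_q_ne q c hq hc n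
    have h2 := qPoch_c_ne q c hq hc n
    have h3 := hc n
    have h4 : 1 - q * q ^ n ≠ 0 := by have := hq n; rwa [pow_succ'] at this
    rw [pow_succ']
    generalize q ^ n = Q at *
    generalize hu : 1 - q * Q = u at *
    generalize hv : 1 - c * Q = v at *
    field_simp
    rw [← hu, ← hv]
    ring

variable (ha : 1 - a ≠ 0) (hb : 1 - b ≠ 0)
include ha hb

lemma riccati : G q a b c - PowerSeries.C (c / q) * PowerSeries.rescale q (G q a b c) +
    PowerSeries.C (c / q * ((1 - a) * (1 - b))) * (G q a b c * PowerSeries.rescale q (G q a b c)) =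
    PowerSeries.X * (1 + PowerSeries.C (a + b - a * b) * G q a b c -
      PowerSeries.C (a * b) * PowerSeries.rescale q (G q a b c) +
      PowerSeries.C (a * b * ((1 - a) * (1 - b))) *
        (G q a b c * PowerSeries.rescale q (G q a b c))) := by
  have h1 := diff_phi q a b c hq hc
  have h2 := qdiff_phi q a b c hq0 hq hc
  set P := phi q a b c with hP
  set Q := PowerSeries.rescale q P with hQ
  set g := G q a b c with hg
  set g' := PowerSeries.rescale q g with hg'
  have h3 : Q - PowerSeries.rescale q Q = PowerSeries.C ((1 - a) * (1 - b)) * (Q * g') := by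
    have := congrArg (PowerSeries.rescale q) h1
    rw [map_sub, map_mul (PowerSeries.rescale q) (PowerSeries.C ((1 - a) * (1 - b))) (P * g),
      rescale_C', map_mul (PowerSeries.rescale q) P g] at this
    exact this
  have hP0 : P ≠ 0 := by
    intro h0
    have := constCoeff_phi q a b c
    rw [← hP, h0, map_zero] at this
    exact zero_ne_one this
  have hw : (PowerSeries.C ((1 - a) * (1 - b)) : PowerSeries F) ≠ 0 := by
    rw [Ne, ← map_zero (PowerSeries.C (R := F)), PowerSeries.C_injective.eq_iff]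
    exact mul_ne_zero ha hb
  apply mul_left_cancel₀ (mul_ne_zero hP0 hw)
  set W := (PowerSeries.C ((1 - a) * (1 - b)) : PowerSeries F) with hW
  have hWe : W = 1 - PowerSeries.C a - PowerSeries.C b + PowerSeries.C a * PowerSeries.C b := by
    rw [hW]
    simp only [map_mul, map_sub, map_one]
    ring
  have hQe : Q = P - W * (P * g) := by rw [← h1]; ring
  have hRe : PowerSeries.rescale q Q = Q - W * (Q * g') := by rw [← h3]; ring
  rw [hRe, hQe] at h2
  have e1 : (PowerSeries.C (c / q * ((1 - a) * (1 - b))) : PowerSeries F) =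
    PowerSeries.C (c / q) * W := by rw [map_mul]
  have e2 : (PowerSeries.C (a * b * ((1 - a) * (1 - b))) : PowerSeries F) =
    PowerSeries.C a * PowerSeries.C b * W := by rw [map_mul, map_mul]
  rw [e1, e2]
  simp only [map_add, map_sub, map_mul, map_one] at h2 ⊢
  have hWe' : (1 : PowerSeries F) = W + PowerSeries.C a + PowerSeries.C b -
      PowerSeries.C a * PowerSeries.C b := by rw [hWe]; ring
  linear_combination h2 - PowerSeries.X * P * hWe

/-- The main integrality statement in a general field with a subring. -/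
lemma main (A : Subring F) (hqA : q ∈ A) (haA : a ∈ A) (hbA : b ∈ A) (hcA : c ∈ A) (m : ℕ) :
    D q c m * PowerSeries.coeff m (G q a b c) ∈ A := by
  have hG0 : PowerSeries.coeff 0 (G q a b c) = 0 := by
    unfold G
    simp
  induction m using Nat.strong_induction_on with
  | _ m ih =>
  rcases m with _ | m
  · rw [hG0, mul_zero]
    exact zero_mem _
  have hr := congrArg (PowerSeries.coeff (m + 1)) (riccati q a b c hq0 hq hc ha hb)
  rw [PowerSeries.coeff_succ_X_mul] at hr
  generalize hk1 : a + b - a * b = k1 at hr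
  generalize hk2 : c / q * ((1 - a) * (1 - b)) = k2 at hr
  generalize hk3 : a * b * ((1 - a) * (1 - b)) = k3 at hr
  generalize hk4 : a * b = k4 at hr
  rw [map_add, map_sub, map_add, map_sub, map_add] at hr
  simp only [PowerSeries.coeff_C_mul] at hr
  simp only [PowerSeries.coeff_mul, PowerSeries.coeff_rescale] at hr
  subst hk1 hk2 hk3 hk4
  have hcq : c / q * (q ^ (m + 1) * PowerSeries.coeff (m + 1) (G q a b c)) =
      c * q ^ m * PowerSeries.coeff (m + 1) (G q a b c) := by
    rw [pow_succ]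
    field_simp
  rw [hcq] at hr
  have hmain : (1 - c * q ^ m) * PowerSeries.coeff (m + 1) (G q a b c) =
      PowerSeries.coeff m (1 : PowerSeries F) + (a + b - a * b) * PowerSeries.coeff m (G q a b c) -
        a * b * (q ^ m * PowerSeries.coeff m (G q a b c)) +
      a * b * ((1 - a) * (1 - b)) * ∑ p ∈ Finset.HasAntidiagonal.antidiagonal m,
        PowerSeries.coeff p.1 (G q a b c) * (q ^ p.2 * PowerSeries.coeff p.2 (G q a b c)) -
      c / q * ((1 - a) * (1 - b)) * ∑ p ∈ Finset.HasAntidiagonal.antidiagonal (m + 1),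
        PowerSeries.coeff p.1 (G q a b c) * (q ^ p.2 * PowerSeries.coeff p.2 (G q a b c)) := by
    linear_combination hr
  rw [D_eq_E q c (m + 1) (by omega), Nat.add_sub_cancel, mul_assoc, hmain]
  have hEA : E q c (m + 1) ∈ A := mem_prod q c A hqA hcA _ _
  -- the building blocks
  have hEm : E q c (m + 1) * PowerSeries.coeff m (G q a b c) ∈ A := by
    obtain ⟨r, hr, he⟩ := D_dvd q c A hqA hcA m
    rw [he, mul_assoc]
    exact mul_mem hr (ih m (by omega))
  have hEE : ∀ i j : ℕ, 1 ≤ i → 1 ≤ j → i + j = m + 1 →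
      E q c (m + 1) * (PowerSeries.coeff i (G q a b c) * PowerSeries.coeff j (G q a b c)) ∈ A := by
    intro i j hi hj hij
    obtain ⟨r, hr, he⟩ := DD_dvd q c A hqA hcA i j hi hj
    rw [← hij, he]
    have h1 := ih i (by omega)
    have h2 := ih j (by omega)
    have := mul_mem hr (mul_mem h1 h2)
    convert this using 1
    ring
  have hEEm : ∀ i j : ℕ, i + j = m →
      E q c (m + 1) * (PowerSeries.coeff i (G q a b c) * PowerSeries.coeff j (G q a b c)) ∈ A := by
    intro i j hij
    rcases Nat.eq_zero_or_pos i with hi | hi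
    · rw [hi, hG0, zero_mul, mul_zero]
      exact zero_mem _
    rcases Nat.eq_zero_or_pos j with hj | hj
    · rw [hj, hG0, mul_zero, mul_zero]
      exact zero_mem _
    obtain ⟨r, hr, he⟩ := D_dvd q c A hqA hcA m
    obtain ⟨r', hr', he'⟩ := DD_dvd q c A hqA hcA i j hi hj
    rw [he, D_eq_E q c m (by omega), ← hij, he']
    have h1 := ih i (by omega)
    have h2 := ih j (by omega)
    have h5 : (1 - c * q ^ (i + j - 1)) ∈ A := sub_mem (one_mem _) (mul_mem hcA (pow_mem hqA _))
    have := mul_mem (mul_mem (mul_mem hr hr') h5) (mul_mem h1 h2)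
    convert this using 1
    ring
  have h1 : E q c (m + 1) * PowerSeries.coeff m (1 : PowerSeries F) ∈ A := by
    rw [PowerSeries.coeff_one]
    split_ifs
    · rw [mul_one]; exact hEA
    · rw [mul_zero]; exact zero_mem _
  have habA : a * b ∈ A := mul_mem haA hbA
  have hwA : (1 - a) * (1 - b) ∈ A :=
    mul_mem (sub_mem (one_mem _) haA) (sub_mem (one_mem _) hbA)
  have hS1 : E q c (m + 1) * ∑ p ∈ Finset.HasAntidiagonal.antidiagonal m,
        PowerSeries.coeff p.1 (G q a b c) * (q ^ p.2 * PowerSeries.coeff p.2 (G q a b c)) ∈ A := by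
    rw [Finset.mul_sum]
    apply Subring.sum_mem
    intro p hp
    rw [Finset.HasAntidiagonal.mem_antidiagonal] at hp
    have := mul_mem (pow_mem hqA p.2) (hEEm p.1 p.2 hp)
    convert this using 1
    ring
  have hS2 : E q c (m + 1) * (c / q * ∑ p ∈ Finset.HasAntidiagonal.antidiagonal (m + 1),
        PowerSeries.coeff p.1 (G q a b c) * (q ^ p.2 * PowerSeries.coeff p.2 (G q a b c))) ∈ A := by
    rw [Finset.mul_sum, Finset.mul_sum]
    apply Subring.sum_mem
    intro p hp
    rw [Finset.HasAntidiagonal.mem_antidiagonal] at hp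
    rcases Nat.eq_zero_or_pos p.1 with hi | hi
    · rw [hi, hG0, zero_mul, mul_zero, mul_zero]
      exact zero_mem _
    rcases Nat.eq_zero_or_pos p.2 with hj | hj
    · rw [hj, hG0, mul_zero, mul_zero, mul_zero, mul_zero]
      exact zero_mem _
    have := mul_mem (mul_mem hcA (pow_mem hqA (p.2 - 1))) (hEE p.1 p.2 hi hj hp)
    convert this using 1
    obtain ⟨j, hj'⟩ : ∃ j, p.2 = j + 1 := ⟨p.2 - 1, by omega⟩
    rw [hj', Nat.add_sub_cancel, pow_succ]
    field_simp
  have t1 := add_mem h1 (mul_mem (sub_mem (add_mem haA hbA) habA) hEm)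
  have t2 := sub_mem t1 (mul_mem (mul_mem habA (pow_mem hqA m)) hEm)
  have t3 := add_mem t2 (mul_mem (mul_mem habA hwA) hS1)
  have t4 := sub_mem t3 (mul_mem hwA hS2)
  convert t4 using 1
  ring

end general

/-- The field `ℚ(a, b, c, q)`, as the field of fractions of `ℤ[a, b, c, q]`; the variables
`a, b, c, q` are numbered `0, 1, 2, 3`. -/
abbrev K : Type := FractionRing (MvPolynomial (Fin 4) ℤ)

/-- The indeterminate number `i`, as an element of `K`. -/
noncomputable def var (i : Fin 4) : K := algebraMap (MvPolynomial (Fin 4) ℤ) K (MvPolynomial.X i)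

lemma poly_ne (P : MvPolynomial (Fin 4) ℤ) (v : Fin 4 → ℤ) (h : MvPolynomial.eval v P ≠ 0) :
    algebraMap (MvPolynomial (Fin 4) ℤ) K P ≠ 0 := by
  intro h0
  rw [map_eq_zero_iff _ (IsFractionRing.injective (MvPolynomial (Fin 4) ℤ) K)] at h0
  apply h
  rw [h0, map_zero]

/-- **For every `n ≥ 0` there is a polynomial `P ∈ ℤ[a, b, c, q]` with
`γ_n / (1 - c) = P / ∏_{k=0}^{n} (1 - c q ^ k) ^ ⌊(n + 1) / (k + 1)⌋`.** -/
theorem result : ∀ n : ℕ, ∃ P : MvPolynomial (Fin 4) ℤ,
    gamma (var 3) (var 0) (var 1) (var 2) n / (1 - var 2) =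
      algebraMap (MvPolynomial (Fin 4) ℤ) K P /
        ∏ k ∈ Finset.range (n + 1), (1 - var 2 * var 3 ^ k) ^ ((n + 1) / (k + 1)) := by
  intro n
  have hq0 : var 3 ≠ 0 := poly_ne _ (fun _ => 1) (by simp)
  have hq : ∀ n : ℕ, 1 - var 3 ^ (n + 1) ≠ 0 := by
    intro n
    have := poly_ne (1 - MvPolynomial.X 3 ^ (n + 1)) (fun _ => 0) (by simp)
    rwa [map_sub, map_one, map_pow] at this
  have hc : ∀ n : ℕ, 1 - var 2 * var 3 ^ n ≠ 0 := by
    intro n
    have := poly_ne (1 - MvPolynomial.X 2 * MvPolynomial.X 3 ^ n) (fun _ => 0) (by simp)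
    rwa [map_sub, map_one, map_mul, map_pow] at this
  have ha : 1 - var 0 ≠ 0 := by
    have := poly_ne (1 - MvPolynomial.X 0) (fun _ => 0) (by simp)
    rwa [map_sub, map_one] at this
  have hb : 1 - var 1 ≠ 0 := by
    have := poly_ne (1 - MvPolynomial.X 1) (fun _ => 0) (by simp)
    rwa [map_sub, map_one] at this
  have hA : ∀ i, var i ∈ (algebraMap (MvPolynomial (Fin 4) ℤ) K).range := fun i => ⟨_, rfl⟩
  obtain ⟨P, hP⟩ := main (var 3) (var 0) (var 1) (var 2) hq0 hq hc ha hb
    (algebraMap (MvPolynomial (Fin 4) ℤ) K).range (hA 3) (hA 0) (hA 1) (hA 2) (n + 1)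
  refine ⟨P, ?_⟩
  have hD : D (var 3) (var 2) (n + 1) ≠ 0 := by
    unfold D
    rw [Finset.prod_ne_zero_iff]
    intro k _
    exact pow_ne_zero _ (hc k)
  have hG : PowerSeries.coeff (n + 1) (G (var 3) (var 0) (var 1) (var 2)) =
      gamma (var 3) (var 0) (var 1) (var 2) n / (1 - var 2) := by
    unfold G gamma
    rw [PowerSeries.coeff_succ_X_mul, PowerSeries.coeff_C_mul]
    ring
  rw [hP, hG, ← D]
  field_simp

end Pool.Agent.Results.MP_2e34cc_co.Denominators
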